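import Mathlib
import Pool.Agent.Helper69.MD.Defs

/-! `deltaL` is invariant under linear isometries. -/

set_option autoImplicit false
namespace Pool.Agent.Helper63.ML
open Complex Metric MeasureTheory
open scoped ComplexConjugate ENNReal Pointwise
open Pool.Agent.Helper69.MD

lemma image_vadd (g : E3 ≃ₗᵢ[ℝ] E3) (u : E3) (K : Set E3) :
    g u +ᵥ (g '' K) = g '' (u +ᵥ K) := by
  ext x
  constructor
  · rintro ⟨_, ⟨k, hk, rfl⟩, rfl⟩
    exact ⟨u +ᵥ k, ⟨k, hk, rfl⟩, by simp [vadd_eq_add]⟩
  · rintro ⟨_, ⟨k, hk, rfl⟩, rfl⟩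
    exact ⟨g k, ⟨k, hk, rfl⟩, by simp [vadd_eq_add]⟩

lemma volume_image (g : E3 ≃ₗᵢ[ℝ] E3) (X : Set E3) : volume (g '' X) = volume X := by
  have h1 : g '' X = g.symm ⁻¹' X := by
    ext x
    simp only [Set.mem_image, Set.mem_preimage]
    constructor
    · rintro ⟨y, hy, rfl⟩; simpa using hy
    · intro h; exact ⟨g.symm x, h, by simp⟩
  rw [h1]
  exact g.symm.measurePreserving.measure_preimage_emb
    g.symm.toHomeomorph.measurableEmbedding X

lemma volume_term (g : E3 ≃ₗᵢ[ℝ] E3) (K : Set E3) (u : E3) (r : ℝ) :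
    volume ((g u +ᵥ (g '' K)) ∩ closedBall (0 : E3) r) =
      volume ((u +ᵥ K) ∩ closedBall (0 : E3) r) := by
  rw [image_vadd, ← volume_image g ((u +ᵥ K) ∩ closedBall (0 : E3) r),
    Set.image_inter g.injective, LinearIsometryEquiv.image_closedBall, map_zero]

theorem deltaL_le_image (g : E3 ≃ₗᵢ[ℝ] E3) (K : Set E3) : deltaL K ≤ deltaL (g '' K) := by
  unfold deltaL
  refine iSup_le fun Λ => iSup_le fun h1 => iSup_le fun h2 => iSup_le fun h3 => ?_
  let e : E3 ≃L[ℝ] E3 := g.symm.toContinuousLinearEquiv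
  have hmem : ∀ x, x ∈ ZLattice.comap ℝ Λ e.toLinearMap ↔ g.symm x ∈ Λ := fun x => Iff.rfl
  have hpack : IsPacking (g '' K) (ZLattice.comap ℝ Λ e.toLinearMap) := by
    intro u hu w hw huw
    rw [hmem] at hu hw
    have h4 := h3 _ hu _ hw (fun h => huw (g.symm.injective h))
    have e1 : u = g (g.symm u) := by simp
    have e2 : w = g (g.symm w) := by simp
    rw [e1, e2, image_vadd, image_vadd]
    have e3 : ∀ X : Set E3, interior (g '' X) = g '' interior X := fun X =>
      (g.toHomeomorph.image_interior X).symm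
    rw [e3, e3]
    exact (Set.disjoint_image_iff g.injective).mpr h4
  refine le_iSup_of_le (ZLattice.comap ℝ Λ e.toLinearMap) (le_iSup_of_le inferInstance
    (le_iSup_of_le inferInstance (le_iSup_of_le hpack ?_)))
  apply le_of_eq
  unfold density
  congr 1
  funext r
  congr 1
  let f : Λ ≃ ZLattice.comap ℝ Λ e.toLinearMap :=
    { toFun := fun u => ⟨g u, by rw [hmem]; simp⟩
      invFun := fun u => ⟨g.symm u, (hmem _).mp u.2⟩
      left_inv := fun u => by simp
      right_inv := fun u => by simp }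
  rw [← f.tsum_eq]
  apply tsum_congr
  intro u
  exact (volume_term g K u r).symm

theorem deltaL_image (g : E3 ≃ₗᵢ[ℝ] E3) (K : Set E3) : deltaL (g '' K) = deltaL K := by
  apply le_antisymm _ (deltaL_le_image g K)
  have h := deltaL_le_image g.symm (g '' K)
  rwa [← Set.image_comp, show (g.symm : E3 → E3) ∘ g = id from funext fun x => by simp,
    Set.image_id] at h

end Pool.Agent.Helper63.ML
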